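import Pool.Agent.H32.CutSp

set_option autoImplicit false

open Topology

namespace Pool.Agent.Results.MP_145b75_an.NotDelta

open Pool.Agent.H32.Cut2

/-- An operator on a complex Banach space that is uniformly recurrent but whose vectors with
return sets meeting every difference set are not dense. -/
theorem result :
    ∃ (X : Type) (_ : NormedAddCommGroup X) (_ : NormedSpace ℂ X) (_ : CompleteSpace X)
      (T : X →L[ℂ] X),
      Dense {x : X | ∀ U ∈ 𝓝 x, ∃ g : ℕ, ∀ k : ℕ, ∃ n : ℕ, k ≤ n ∧ n ≤ k + g ∧ (T ^ n) x ∈ U} ∧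
      ¬Dense {x : X | ∀ U ∈ 𝓝 x, ∀ B : Set ℕ, B.Infinite →
        ∃ a ∈ B, ∃ b ∈ B, a < b ∧ (T ^ (b - a)) x ∈ U} := by
  obtain ⟨z, hz⟩ := urec
  obtain ⟨x, hx⟩ := exists_φ z
  refine ⟨X z, inferInstance, inferInstance, inferInstance, T z, hz, fun h => hx ?_⟩
  exact (isClosed_eq (f := fun x : X z => φ x) (by fun_prop) continuous_const).closure_subset
    (closure_mono (fun x hx => no_delta z x hx) (h x))

end Pool.Agent.Results.MP_145b75_an.NotDelta
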